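import Mathlib

set_option autoImplicit false

namespace Pool.Agent.MP_62dea9_al

open Matrix MvPolynomial

variable {F : Type*} [Field F]

lemma exists_sandwich {p q : Type*} [Fintype p] [Fintype q] [DecidableEq p] [DecidableEq q]
    (Z : Matrix p q F) :
    ∃ (P : Matrix (Fin Z.rank) p F) (Q : Matrix q (Fin Z.rank) F), P * Z * Q = 1 := by
  let R : Submodule F (p → F) := LinearMap.range Z.mulVecLin
  let b : Module.Basis (Fin Z.rank) F R := Module.finBasisOfFinrankEq F R rfl
  have hv : ∀ j, ∃ v : q → F, Z.mulVecLin v = (b j : p → F) := fun j => (b j).2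
  choose v hv using hv
  obtain ⟨g, hg⟩ := LinearMap.exists_extend (p := R) (b.equivFun.toLinearMap)
  refine ⟨LinearMap.toMatrix' g, Matrix.of fun i j => v j i, ?_⟩
  ext i j
  have h1 : (LinearMap.toMatrix' g * Z * Matrix.of fun i j => v j i) i j
      = ((LinearMap.toMatrix' g * Z) *ᵥ v j) i := by
    simp [Matrix.mul_apply, Matrix.mulVec, dotProduct]
  rw [h1, ← Matrix.mulVec_mulVec, LinearMap.toMatrix'_mulVec]
  have h2 : Z *ᵥ v j = (b j : p → F) := hv j
  rw [h2]
  have h3 : g (b j : p → F) = b.equivFun (b j) := by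
    have := LinearMap.congr_fun hg (b j)
    simpa using this
  rw [h3]
  simp [Matrix.one_apply, eq_comm]

lemma totalDegree_det_le {σ : Type*} {r : ℕ} (B : Matrix (Fin r) (Fin r) (MvPolynomial σ F))
    (hB : ∀ i j, (B i j).totalDegree ≤ 1) : B.det.totalDegree ≤ r := by
  rw [Matrix.det_apply']
  refine (totalDegree_finsetSum _ _).trans (Finset.sup_le fun s _ => ?_)
  refine (totalDegree_mul _ _).trans ?_
  have h1 : (((Equiv.Perm.sign s : ℤ) : MvPolynomial σ F)).totalDegree = 0 := by
    rw [← map_intCast (C : F →+* MvPolynomial σ F)]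
    exact totalDegree_C _
  rw [h1, zero_add]
  refine (totalDegree_finsetProd _ _).trans ?_
  calc ∑ i, (B (s i) i).totalDegree ≤ ∑ _i : Fin r, 1 := Finset.sum_le_sum fun i _ => hB _ _
    _ = r := by simp

lemma card_le_of_linearIndependent {σ κ : Type*} [Fintype σ] [Fintype κ] (e : ℕ)
    (g : κ → MvPolynomial σ F) (hg : LinearIndependent F g) (hd : ∀ k, (g k).totalDegree ≤ e) :
    Fintype.card κ ≤ (e + 1) ^ Fintype.card σ := by
  classical
  let g' : κ → restrictDegree σ F e := fun k =>
    ⟨g k, restrictTotalDegree_le_restrictDegree σ F e ((mem_restrictTotalDegree σ e _).2 (hd k))⟩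
  have hg' : LinearIndependent F g' :=
    LinearIndependent.of_comp (restrictDegree σ F e).subtype hg
  refine hg'.fintype_card_le_finrank.trans ?_
  have hb := Module.finrank_eq_nat_card_basis
    (basisRestrictSupport F {n : σ →₀ ℕ | ∀ i, n i ≤ e})
  have : Module.finrank F (restrictDegree σ F e)
      = Nat.card {n : σ →₀ ℕ | ∀ i, n i ≤ e} := hb
  rw [this]
  let φ : {n : σ →₀ ℕ | ∀ i, n i ≤ e} → (σ → Fin (e + 1)) :=
    fun n i => ⟨n.1 i, Nat.lt_succ_of_le (n.2 i)⟩
  have hφ : Function.Injective φ := by
    intro a b h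
    apply Subtype.ext
    ext i
    exact congrArg Fin.val (congrFun h i)
  refine (Nat.card_le_card_of_injective φ hφ).trans ?_
  simp

/-- The number of rank patterns of `M * Y i`, as `M` varies, is small. -/
lemma card_rank_patterns {p q ι : Type*} [Fintype p] [Fintype q] [Fintype ι]
    (Y : ι → Matrix p q F) (S : Finset (ι → ℕ))
    (hS : ∀ r ∈ S, ∃ M : Matrix p p F, ∀ i, (M * Y i).rank = r i) :
    S.card ≤ (Fintype.card ι * Fintype.card q + 1) ^ (Fintype.card p * Fintype.card p) := by
  classical
  choose M hM using fun r : S => hS r.1 r.2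
  choose P Q hPQ using fun (r : S) (i : ι) => exists_sandwich (M r * Y i)
  let Xm : Matrix p p (MvPolynomial (p × p) F) := Matrix.of fun a b => X (a, b)
  let B : ∀ (r : S) (i : ι), Matrix (Fin (M r * Y i).rank) (Fin (M r * Y i).rank)
      (MvPolynomial (p × p) F) := fun r i =>
    (P r i).map (C : F →+* MvPolynomial (p × p) F) *
      (Xm * (Y i).map (C : F →+* MvPolynomial (p × p) F)) *
      (Q r i).map (C : F →+* MvPolynomial (p × p) F)
  let g : S → MvPolynomial (p × p) F := fun r => ∏ i, (B r i).det
  have hev : ∀ (r : S) (N : Matrix p p F), eval (fun ab : p × p => N ab.1 ab.2) (g r)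
      = ∏ i, (P r i * (N * Y i) * Q r i).det := by
    intro r N
    simp only [g, map_prod]
    refine Finset.prod_congr rfl fun i _ => ?_
    rw [RingHom.map_det]
    congr 1
    simp only [B, RingHom.mapMatrix_apply, Matrix.map_mul]
    congr 2
    · ext a b; simp
    · congr 1
      · ext a b; simp [Xm]
      · ext a b; simp
    · ext a b; simp
  have hdeg : ∀ r : S, (g r).totalDegree ≤ Fintype.card ι * Fintype.card q := by
    intro r
    refine (totalDegree_finsetProd _ _).trans ?_
    calc ∑ i, (B r i).det.totalDegree ≤ ∑ _i : ι, Fintype.card q := by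
          refine Finset.sum_le_sum fun i _ => ?_
          refine (totalDegree_det_le _ fun a b => ?_).trans (Matrix.rank_le_card_width _)
          simp only [B, Matrix.mul_apply, Matrix.map_apply, Xm, Matrix.of_apply]
          refine (totalDegree_finsetSum _ _).trans (Finset.sup_le fun s _ => ?_)
          refine (totalDegree_mul _ _).trans ?_
          rw [totalDegree_C, add_zero]
          refine (totalDegree_finsetSum _ _).trans (Finset.sup_le fun t _ => ?_)
          refine (totalDegree_mul _ _).trans ?_
          rw [totalDegree_C, zero_add]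
          refine (totalDegree_finsetSum _ _).trans (Finset.sup_le fun u _ => ?_)
          refine (totalDegree_mul _ _).trans ?_
          rw [totalDegree_C, add_zero, totalDegree_X]
      _ = _ := by simp
  have hself : ∀ r : S, eval (fun ab : p × p => M r ab.1 ab.2) (g r) ≠ 0 := by
    intro r
    rw [hev]
    simp [hPQ]
  have hle : ∀ r r' : S, eval (fun ab : p × p => M r' ab.1 ab.2) (g r) ≠ 0 → r.1 ≤ r'.1 := by
    intro r r' h i
    rw [hev] at h
    have h1 := Finset.prod_ne_zero_iff.1 h i (Finset.mem_univ i)
    have h2 := Matrix.rank_of_det_ne_zero h1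
    rw [Fintype.card_fin] at h2
    rw [← hM r i, ← hM r' i, ← h2]
    exact (Matrix.rank_mul_le_left _ _).trans (Matrix.rank_mul_le_right _ _)
  have hli : LinearIndependent F g := by
    rw [Fintype.linearIndependent_iff]
    intro c hc
    by_contra hne
    push Not at hne
    obtain ⟨r0, hr0⟩ := (Set.toFinite {r : S | c r ≠ 0}).exists_minimal hne
    have := congrArg (eval (fun ab : p × p => M r0 ab.1 ab.2)) hc
    rw [map_sum, map_zero, Finset.sum_eq_single r0] at this
    · rw [smul_eval] at this
      exact mul_ne_zero hr0.1 (hself r0) this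
    · intro r _ hr
      rw [smul_eval]
      by_contra h
      have h1 := (mul_ne_zero_iff.1 h)
      have h2 : r ≤ r0 := hle r r0 h1.2
      exact hr (le_antisymm h2 (hr0.2 h1.1 h2))
    · simp
  have := card_le_of_linearIndependent _ g hli hdeg
  simpa using this

end Pool.Agent.MP_62dea9_al
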