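import Mathlib

set_option autoImplicit false

namespace Pool.Agent.MP_62dea9_al

open Module

variable {F W : Type*} [Field F] [AddCommGroup W] [Module F W] [FiniteDimensional F W]

/-- A submodular function on the subspace lattice has, after adding a suitable small multiple of
the dimension, a unique minimiser with a definite gap. -/
lemma exists_robust_min (ψ : Submodule F W → ℤ) (B : ℤ) (hB : ∀ U, B ≤ ψ U)
    (hψ : ∀ U U', ψ (U ⊔ U') + ψ (U ⊓ U') ≤ ψ U + ψ U') (μ : ℤ) (hμ : 0 < μ) :
    ∃ k : ℕ, k ≤ 2 * finrank F W + 1 ∧ ∃ U₀ : Submodule F W, ∀ U, U ≠ U₀ →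
      k * μ * finrank F U₀ + ψ U₀ + μ ≤ k * μ * finrank F U + ψ U := by
  have hmin : ∀ k : ℕ, ∃ U₀ : Submodule F W, ∀ U : Submodule F W,
      k * μ * finrank F U₀ + ψ U₀ ≤ k * μ * finrank F U + ψ U := by
    intro k
    obtain ⟨z, ⟨U₀, rfl⟩, hz⟩ := Int.exists_least_of_bdd
      (P := fun z => ∃ U : Submodule F W, k * μ * finrank F U + ψ U = z)
      ⟨B, by
        rintro z ⟨U, rfl⟩
        have := hB U
        have : (0 : ℤ) ≤ k * μ * finrank F U := by positivity
        linarith⟩ ⟨_, ⊥, rfl⟩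
    exact ⟨U₀, fun U => hz _ ⟨U, rfl⟩⟩
  choose x hx using hmin
  have hanti : ∀ i : ℕ, finrank F (x (2 * (i + 1))) ≤ finrank F (x (2 * i)) := by
    intro i
    have h1 := hx (2 * i) (x (2 * (i + 1)))
    have h2 := hx (2 * (i + 1)) (x (2 * i))
    push_cast at h1 h2
    have h3 : 2 * μ * ((finrank F (x (2 * (i + 1))) : ℤ) - finrank F (x (2 * i))) ≤ 0 := by
      nlinarith
    have h4 : ((finrank F (x (2 * (i + 1))) : ℤ) - finrank F (x (2 * i))) ≤ 0 := by
      by_contra hc
      push Not at hc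
      nlinarith
    omega
  have hex : ∃ i ≤ finrank F W, finrank F (x (2 * (i + 1))) = finrank F (x (2 * i)) := by
    by_contra hc
    push Not at hc
    have : ∀ i ≤ finrank F W + 1, finrank F (x (2 * i)) + i ≤ finrank F W := by
      intro i
      induction i with
      | zero => intro _; simpa using Submodule.finrank_le _
      | succ i ih =>
        intro hi
        have h1 := ih (by omega)
        have h2 := hanti i
        have h3 := hc i (by omega)
        omega
    have := this _ le_rfl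
    omega
  obtain ⟨i, hi, hti⟩ := hex
  refine ⟨2 * i + 1, by omega, x (2 * i), ?_⟩
  set U₀ := x (2 * i) with hU₀
  have hgap : ∀ U : Submodule F W, finrank F U ≠ finrank F U₀ →
      ((2 * i + 1 : ℕ) : ℤ) * μ * finrank F U₀ + ψ U₀ + μ
        ≤ ((2 * i + 1 : ℕ) : ℤ) * μ * finrank F U + ψ U := by
    intro U hU
    have h1 := hx (2 * i) U
    have h2 := hx (2 * (i + 1)) U
    have h3 := hx (2 * i) (x (2 * (i + 1)))
    rw [hti] at h2 h3
    rw [← hU₀] at h1 h3
    push_cast at h1 h2 h3 ⊢
    rcases lt_or_gt_of_ne hU with hlt | hlt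
    · have : (finrank F U : ℤ) + 1 ≤ finrank F U₀ := by exact_mod_cast hlt
      nlinarith
    · have : (finrank F U₀ : ℤ) + 1 ≤ finrank F U := by exact_mod_cast hlt
      nlinarith
  intro U hU
  by_cases hd : finrank F U = finrank F U₀
  · have hinf : finrank F (U ⊓ U₀ : Submodule F W) ≠ finrank F U₀ := by
      intro h
      have h1 : U ⊓ U₀ = U₀ := Submodule.eq_of_le_of_finrank_eq inf_le_right h
      have h2 : U₀ ≤ U := h1 ▸ inf_le_left
      exact hU (Submodule.eq_of_le_of_finrank_eq h2 hd.symm).symm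
    have hsup : finrank F (U ⊔ U₀ : Submodule F W) ≠ finrank F U₀ := by
      intro h
      have h1 : U₀ = U ⊔ U₀ := Submodule.eq_of_le_of_finrank_eq le_sup_right h.symm
      have h2 : U ≤ U₀ := h1 ▸ le_sup_left
      exact hU (Submodule.eq_of_le_of_finrank_eq h2 hd)
    have h1 := hgap _ hinf
    have h2 := hgap _ hsup
    have h3 := hψ U U₀
    have h4 : (finrank F (U ⊔ U₀ : Submodule F W) : ℤ) + finrank F (U ⊓ U₀ : Submodule F W)
        = finrank F U + finrank F U₀ := by
      exact_mod_cast Submodule.finrank_sup_add_finrank_inf_eq U U₀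
    have h5 : ((2 * i + 1 : ℕ) : ℤ) * μ * finrank F (U ⊔ U₀ : Submodule F W)
        + ((2 * i + 1 : ℕ) : ℤ) * μ * finrank F (U ⊓ U₀ : Submodule F W)
        = ((2 * i + 1 : ℕ) : ℤ) * μ * finrank F U + ((2 * i + 1 : ℕ) : ℤ) * μ * finrank F U₀ := by
      rw [← mul_add, h4, mul_add]
    linarith
  · exact hgap U hd

end Pool.Agent.MP_62dea9_al
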