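import Mathlib

set_option autoImplicit false

namespace Pool.Agent.MP_62dea9_al

open Finset Real

lemma sum_exp_signs {m : ℕ} (y : Fin m → ℝ) (e : ℝ) (hy : ∀ i, |y i| ≤ e) :
    ∑ s : Fin m → Bool, exp (∑ i, if s i then y i else -y i) ≤ 2 ^ m * exp (m * e ^ 2 / 2) := by
  have h1 : ∑ s : Fin m → Bool, exp (∑ i, if s i then y i else -y i)
      = ∏ i, ∑ b : Bool, exp (if b then y i else -y i) := by
    rw [Finset.prod_univ_sum]
    simp only [Fintype.piFinset_univ, Real.exp_sum]
  rw [h1]
  calc ∏ i, ∑ b : Bool, exp (if b then y i else -y i)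
      ≤ ∏ _i : Fin m, 2 * exp (e ^ 2 / 2) := by
        refine Finset.prod_le_prod (fun i _ => Finset.sum_nonneg fun b _ => (exp_pos _).le)
          fun i _ => ?_
        have h2 := cosh_le_exp_half_sq (y i)
        rw [cosh_eq] at h2
        have h3 : exp (y i ^ 2 / 2) ≤ exp (e ^ 2 / 2) := by
          apply exp_le_exp.2
          have := sq_le_sq' (abs_le.1 (hy i)).1 (abs_le.1 (hy i)).2
          linarith
        simp only [Fintype.sum_bool, if_true, Bool.false_eq_true, if_false]
        linarith
    _ = 2 ^ m * exp (m * e ^ 2 / 2) := by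
        rw [Finset.prod_const, Finset.card_univ, Fintype.card_fin, mul_pow, ← Real.exp_nat_mul]
        congr 2
        ring

lemma exists_signs {κ : Type*} (P : Finset κ) {m : ℕ} (x : κ → Fin m → ℝ) {d τ : ℝ}
    (hd : 0 < d) (hm : 0 < m) (hτ : 0 < τ) (hx : ∀ p ∈ P, ∀ i, |x p i| ≤ d)
    (h : 2 * (P.card : ℝ) < exp (τ ^ 2 / (2 * m * d ^ 2))) :
    ∃ s : Fin m → Bool, ∀ p ∈ P, |∑ i, if s i then x p i else -x p i| < τ := by
  by_contra hne
  push Not at hne
  have hm' : (0 : ℝ) < m := by exact_mod_cast hm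
  set l : ℝ := τ / (m * d ^ 2) with hl
  have hl0 : 0 < l := by positivity
  have key : ∀ s : Fin m → Bool, exp (l * τ) ≤ ∑ p ∈ P,
      (exp (∑ i, if s i then l * x p i else -(l * x p i)) +
        exp (∑ i, if s i then -(l * x p i) else -(-(l * x p i)))) := by
    intro s
    obtain ⟨p, hp, hτp⟩ := hne s
    refine le_trans ?_ (Finset.single_le_sum (f := fun p =>
      (exp (∑ i, if s i then l * x p i else -(l * x p i)) +
        exp (∑ i, if s i then -(l * x p i) else -(-(l * x p i)))))
      (fun p _ => by positivity) hp)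
    set S := ∑ i, if s i then x p i else -x p i with hS
    have e1 : (∑ i, if s i then l * x p i else -(l * x p i)) = l * S := by
      rw [hS, Finset.mul_sum]
      refine Finset.sum_congr rfl fun i _ => ?_
      split_ifs <;> ring
    have e2 : (∑ i, if s i then -(l * x p i) else -(-(l * x p i))) = -(l * S) := by
      rw [hS, Finset.mul_sum, ← Finset.sum_neg_distrib]
      refine Finset.sum_congr rfl fun i _ => ?_
      split_ifs <;> ring
    simp only [e1, e2]
    rcases le_abs.1 hτp with h1 | h1
    · have : exp (l * τ) ≤ exp (l * S) := exp_le_exp.2 (by nlinarith)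
      linarith [exp_pos (-(l * S))]
    · have : exp (l * τ) ≤ exp (-(l * S)) := exp_le_exp.2 (by nlinarith)
      linarith [exp_pos (l * S)]
  have hsum := Finset.sum_le_sum (s := Finset.univ) fun s _ => key s
  rw [Finset.sum_comm, Finset.sum_const, Finset.card_univ] at hsum
  have hb : ∀ p ∈ P, ∑ s : Fin m → Bool,
      (exp (∑ i, if s i then l * x p i else -(l * x p i)) +
        exp (∑ i, if s i then -(l * x p i) else -(-(l * x p i))))
      ≤ 2 * (2 ^ m * exp (m * (l * d) ^ 2 / 2)) := by
    intro p hp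
    rw [Finset.sum_add_distrib]
    have hb1 : ∀ i, |l * x p i| ≤ l * d := fun i => by
      rw [abs_mul, abs_of_pos hl0]
      exact mul_le_mul_of_nonneg_left (hx p hp i) hl0.le
    have h1 := sum_exp_signs (fun i => l * x p i) (l * d) hb1
    have h2 := sum_exp_signs (fun i => -(l * x p i)) (l * d) (fun i => by
      rw [abs_neg]; exact hb1 i)
    linarith
  have h3 := hsum.trans (Finset.sum_le_sum hb)
  rw [Finset.sum_const] at h3
  simp only [Fintype.card_pi, Fintype.card_bool, Finset.prod_const, Finset.card_univ,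
    Fintype.card_fin, nsmul_eq_mul, Nat.cast_pow, Nat.cast_ofNat] at h3
  have h4 : exp (l * τ) = exp (τ ^ 2 / (2 * m * d ^ 2)) * exp (m * (l * d) ^ 2 / 2) := by
    rw [← exp_add]
    congr 1
    rw [hl]
    field_simp
    ring
  rw [h4] at h3
  have h5 : (0 : ℝ) < 2 ^ m * exp (m * (l * d) ^ 2 / 2) := by positivity
  nlinarith

end Pool.Agent.MP_62dea9_al
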