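import Mathlib
import Pool.Agent.MP_62dea9_al.RankPatterns
import Pool.Agent.MP_62dea9_al.Signs
import Pool.Agent.MP_62dea9_al.Robust

set_option autoImplicit false

namespace Pool.Agent.MP_62dea9_al

open Module

variable {F V W : Type*} [Field F] [AddCommGroup V] [Module F V] [FiniteDimensional F V]
  [AddCommGroup W] [Module F W] [FiniteDimensional F W]

/-- The dimension of the preimage of `U` under `j`. -/
noncomputable def ff (U : Submodule F W) (j : V →ₗ[F] W) : ℕ := finrank F (U.comap j)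

omit [FiniteDimensional F W] in
lemma ff_le (U : Submodule F W) (j : V →ₗ[F] W) : ff U j ≤ finrank F V :=
  Submodule.finrank_le _

omit [FiniteDimensional F W] in
lemma ff_supermodular (U U' : Submodule F W) (j : V →ₗ[F] W) :
    ff U j + ff U' j ≤ ff (U ⊔ U') j + ff (U ⊓ U') j := by
  unfold ff
  rw [← Submodule.finrank_sup_add_finrank_inf_eq, Submodule.comap_inf]
  have : U.comap j ⊔ U'.comap j ≤ (U ⊔ U').comap j :=
    sup_le (Submodule.comap_mono le_sup_left) (Submodule.comap_mono le_sup_right)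
  have := Submodule.finrank_mono this
  omega

lemma card_ff_patterns {ι : Type*} [Fintype ι] (j : ι → V →ₗ[F] W) (S : Finset (ι → ℕ))
    (hS : ∀ r ∈ S, ∃ U : Submodule F W, ∀ i, ff U (j i) = r i) :
    S.card ≤ (Fintype.card ι * finrank F V + 1) ^ (finrank F W * finrank F W) := by
  classical
  let bV := Module.finBasis F V
  let bW := Module.finBasis F W
  have h := card_rank_patterns (fun i => LinearMap.toMatrix bV bW (j i))
    (S.image fun r i => finrank F V - r i) (by
      intro r' hr'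
      obtain ⟨r, hr, rfl⟩ := Finset.mem_image.1 hr'
      obtain ⟨U, hU⟩ := hS r hr
      obtain ⟨U', hc⟩ := U.exists_isCompl
      let π : W →ₗ[F] W := U'.subtype ∘ₗ U'.projectionOnto U hc.symm
      have hπ : LinearMap.ker π = U := by
        simp [π, LinearMap.ker_comp]
      refine ⟨LinearMap.toMatrix bW bW π, fun i => ?_⟩
      rw [← LinearMap.toMatrix_comp, Matrix.rank_eq_finrank_range_toLin _ bW bV,
        Matrix.toLin_toMatrix]
      have h1 := LinearMap.finrank_range_add_finrank_ker (π ∘ₗ j i)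
      rw [LinearMap.ker_comp, hπ] at h1
      have h2 := hU i
      unfold ff at h2
      show _ = finrank F V - r i
      omega)
  rw [Finset.card_image_of_injOn] at h
  · simpa using h
  · intro r hr r' hr' e
    obtain ⟨U, hU⟩ := hS r hr
    obtain ⟨U', hU'⟩ := hS r' hr'
    funext i
    have h1 := congrFun e i
    have h2 := ff_le U (j i)
    have h3 := ff_le U' (j i)
    rw [hU] at h2
    rw [hU'] at h3
    simp only at h1
    omega

/-- The submodular potential. -/
noncomputable def Phi (N k : ℕ) {m : ℕ} (j : Fin m → V →ₗ[F] W) (U : Submodule F W) : ℤ :=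
  ((N : ℤ) + k) * m * finrank F U - 2 * N * ∑ i, (ff U (j i) : ℤ)

/-- `U₀` is the unique minimiser of the potential. -/
def IsUMin (N k : ℕ) {m : ℕ} (j : Fin m → V →ₗ[F] W) (U₀ : Submodule F W) : Prop :=
  ∀ U, U ≠ U₀ → Phi N k j U₀ < Phi N k j U

omit [FiniteDimensional F V] [FiniteDimensional F W] in
lemma IsUMin.unique {N k m : ℕ} {j : Fin m → V →ₗ[F] W} {U₀ U₁ : Submodule F W}
    (h₀ : IsUMin N k j U₀) (h₁ : IsUMin N k j U₁) : U₀ = U₁ := by
  by_contra h
  have h2 := h₀ U₁ (Ne.symm h)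
  have h3 := h₁ U₀ h
  omega

omit [FiniteDimensional F V] [FiniteDimensional F W] in
lemma IsUMin.le {N k m : ℕ} {j : Fin m → V →ₗ[F] W} {U₀ : Submodule F W}
    (h₀ : IsUMin N k j U₀) (U : Submodule F W) : Phi N k j U₀ ≤ Phi N k j U := by
  by_cases h : U = U₀
  · rw [h]
  · exact (h₀ U h).le

omit [FiniteDimensional F V] [FiniteDimensional F W] in
lemma IsUMin.map {N k m : ℕ} {j : Fin m → V →ₗ[F] W} {U₀ : Submodule F W}
    (h₀ : IsUMin N k j U₀) (e : W ≃ₗ[F] W) :
    IsUMin N k (fun i => e.toLinearMap ∘ₗ j i) (U₀.map e.toLinearMap) := by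
  have key : ∀ U : Submodule F W,
      Phi N k (fun i => e.toLinearMap ∘ₗ j i) (U.map e.toLinearMap) = Phi N k j U := by
    intro U
    have hc : (U.map e.toLinearMap).comap e.toLinearMap = U :=
      Submodule.comap_map_eq_of_injective e.injective U
    have hf : ∀ i, ff (U.map e.toLinearMap) (e.toLinearMap ∘ₗ j i) = ff U (j i) := by
      intro i
      unfold ff
      rw [Submodule.comap_comp, hc]
    unfold Phi
    rw [LinearEquiv.finrank_map_eq]
    simp only [hf]
  intro U hU
  have h1 : U = (U.comap e.toLinearMap).map e.toLinearMap :=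
    (Submodule.map_comap_eq_of_surjective e.surjective U).symm
  rw [h1, key, key]
  apply h₀
  intro h
  apply hU
  rw [h1, h]

lemma exists_gap (N : ℕ) {m : ℕ} (hm : 0 < m) (j : Fin m → V →ₗ[F] W) :
    ∃ k : ℕ, k ≤ 2 * finrank F W + 1 ∧ ∃ U₀ : Submodule F W, ∀ U, U ≠ U₀ →
      Phi N k j U₀ + m ≤ Phi N k j U := by
  obtain ⟨k, hk, U₀, h⟩ := exists_robust_min (F := F) (W := W) (Phi N 0 j)
    (-(2 * N * (m * finrank F V)))
    (fun U => by
      unfold Phi
      have h1 : ∑ i, (ff U (j i) : ℤ) ≤ m * finrank F V := by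
        calc ∑ i, (ff U (j i) : ℤ) ≤ ∑ _i : Fin m, (finrank F V : ℤ) :=
              Finset.sum_le_sum fun i _ => by exact_mod_cast ff_le U (j i)
          _ = _ := by simp
      have h2 : (0 : ℤ) ≤ ((N : ℤ) + (0 : ℕ)) * m * finrank F U := by positivity
      have h3 : (0 : ℤ) ≤ 2 * N := by positivity
      nlinarith)
    (fun U U' => by
      unfold Phi
      have h4 : (finrank F (U ⊔ U' : Submodule F W) : ℤ) + finrank F (U ⊓ U' : Submodule F W)
          = finrank F U + finrank F U' := by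
        exact_mod_cast Submodule.finrank_sup_add_finrank_inf_eq U U'
      have h5 : ∑ i, (ff U (j i) : ℤ) + ∑ i, (ff U' (j i) : ℤ)
          ≤ ∑ i, (ff (U ⊔ U') (j i) : ℤ) + ∑ i, (ff (U ⊓ U') (j i) : ℤ) := by
        rw [← Finset.sum_add_distrib, ← Finset.sum_add_distrib]
        exact Finset.sum_le_sum fun i _ => by exact_mod_cast ff_supermodular U U' (j i)
      have h3 : (0 : ℤ) ≤ 2 * N := by positivity
      have h6 : ((N : ℤ) + (0 : ℕ)) * m * finrank F (U ⊔ U' : Submodule F W)
          + ((N : ℤ) + (0 : ℕ)) * m * finrank F (U ⊓ U' : Submodule F W)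
          = ((N : ℤ) + (0 : ℕ)) * m * finrank F U + ((N : ℤ) + (0 : ℕ)) * m * finrank F U' := by
        rw [← mul_add, h4, mul_add]
      nlinarith)
    m (by exact_mod_cast hm)
  refine ⟨k, hk, U₀, fun U hU => ?_⟩
  have := h U hU
  unfold Phi at this ⊢
  push_cast at this
  linarith

/-- Coordinatewise mixture of two tuples. -/
def mix {α : Type*} {m : ℕ} (s : Fin m → Bool) (a b : Fin m → α) : Fin m → α :=
  fun i => if s i then a i else b i

lemma exists_common_min {N m : ℕ} (hN : 0 < N) (hm : 0 < m) (hd : 0 < finrank F V)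
    (hnum : 2 * ((((m + m) * finrank F V + 1) ^ (finrank F W * finrank F W) : ℕ) : ℝ)
      < Real.exp (((m : ℝ) / (4 * N)) ^ 2 / (2 * m * (finrank F V : ℝ) ^ 2)))
    (a b : Fin m → V →ₗ[F] W) :
    ∃ (s : Fin m → Bool) (k : ℕ), k ≤ 2 * finrank F W + 1 ∧ ∃ U₀ : Submodule F W,
      IsUMin N k (mix s a b) U₀ ∧ IsUMin N k (mix s b a) U₀ := by
  classical
  let z : Fin m ⊕ Fin m → V →ₗ[F] W := Sum.elim a b
  let S : Finset (Fin m ⊕ Fin m → ℕ) :=
    (Fintype.piFinset fun _ => Finset.range (finrank F V + 1)).filter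
      fun r => ∃ U : Submodule F W, ∀ i, ff U (z i) = r i
  have hS : S.card ≤ ((m + m) * finrank F V + 1) ^ (finrank F W * finrank F W) := by
    have := card_ff_patterns z S (fun r hr => (Finset.mem_filter.1 hr).2)
    simpa using this
  have hN' : (0 : ℝ) < N := by exact_mod_cast hN
  have hm' : (0 : ℝ) < m := by exact_mod_cast hm
  obtain ⟨s, hs⟩ := exists_signs S (fun r i => (r (Sum.inl i) : ℝ) - r (Sum.inr i))
    (d := finrank F V) (τ := (m : ℝ) / (4 * N)) (by exact_mod_cast hd) hm (by positivity)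
    (fun r hr i => by
      have h1 := Fintype.mem_piFinset.1 (Finset.mem_filter.1 hr).1
      have h2 : (r (Sum.inl i) : ℝ) ≤ finrank F V := by
        exact_mod_cast Nat.lt_succ_iff.1 (Finset.mem_range.1 (h1 (Sum.inl i)))
      have h3 : (r (Sum.inr i) : ℝ) ≤ finrank F V := by
        exact_mod_cast Nat.lt_succ_iff.1 (Finset.mem_range.1 (h1 (Sum.inr i)))
      have h4 : (0 : ℝ) ≤ r (Sum.inl i) := by positivity
      have h5 : (0 : ℝ) ≤ r (Sum.inr i) := by positivity
      rw [abs_le]; constructor <;> linarith)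
    (lt_of_le_of_lt (by
      have : (S.card : ℝ) ≤ ((((m + m) * finrank F V + 1) ^ (finrank F W * finrank F W) : ℕ) : ℝ) := by
        exact_mod_cast hS
      linarith) hnum)
  obtain ⟨k, hk, U₀, hgap⟩ := exists_gap N hm (mix s a b)
  have hclose : ∀ U : Submodule F W, 2 * |Phi N k (mix s a b) U - Phi N k (mix s b a) U| < m := by
    intro U
    have hmem : (fun i => ff U (z i)) ∈ S := by
      refine Finset.mem_filter.2 ⟨Fintype.mem_piFinset.2 fun i => ?_, U, fun _ => rfl⟩
      exact Finset.mem_range.2 (Nat.lt_succ_of_le (ff_le U _))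
    have h1 := hs _ hmem
    have h2 : ((Phi N k (mix s a b) U - Phi N k (mix s b a) U : ℤ) : ℝ)
        = -(2 * N) * ∑ i, (if s i then ((ff U (z (Sum.inl i)) : ℝ) - ff U (z (Sum.inr i)))
            else -((ff U (z (Sum.inl i)) : ℝ) - ff U (z (Sum.inr i)))) := by
      unfold Phi
      push_cast
      have : ∑ i, (if s i then ((ff U (z (Sum.inl i)) : ℝ) - ff U (z (Sum.inr i)))
            else -((ff U (z (Sum.inl i)) : ℝ) - ff U (z (Sum.inr i))))
          = ∑ i, (ff U (mix s a b i) : ℝ) - ∑ i, (ff U (mix s b a i) : ℝ) := by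
        rw [← Finset.sum_sub_distrib]
        refine Finset.sum_congr rfl fun i _ => ?_
        by_cases hi : s i <;> simp [mix, hi, z]
      rw [this]
      ring
    have h3 : (2 * |((Phi N k (mix s a b) U - Phi N k (mix s b a) U : ℤ) : ℝ)|) < m := by
      rw [h2, abs_mul, abs_neg, abs_of_pos (by positivity : (0 : ℝ) < 2 * N)]
      rw [lt_div_iff₀ (by positivity)] at h1
      linarith
    exact_mod_cast h3
  refine ⟨s, k, hk, U₀, fun U hU => ?_, fun U hU => ?_⟩
  · have := hgap U hU
    omega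
  · have h1 := hgap U hU
    have h2 := hclose U
    have h3 := hclose U₀
    have h4 := le_abs_self (Phi N k (mix s a b) U - Phi N k (mix s b a) U)
    have h5 := neg_abs_le (Phi N k (mix s a b) U₀ - Phi N k (mix s b a) U₀)
    omega

lemma exists_big_fiber {α β : Type*} [DecidableEq β] (s : Finset α) (t : Finset β) (f : α → β)
    (hf : ∀ a ∈ s, f a ∈ t) (ht : t.Nonempty) :
    ∃ b ∈ t, s.card ≤ (s.filter fun a => f a = b).card * t.card := by
  obtain ⟨b, hb, hmax⟩ := t.exists_max_image (fun b => (s.filter fun a => f a = b).card) ht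
  exact ⟨b, hb, Finset.card_le_mul_card_image_of_maps_to hf _ hmax⟩

/-- Many tuples share the same unique minimiser. -/
lemma exists_many_common {G : Type*} [DecidableEq G] (A : Finset G) (hA : A.Nonempty)
    (j : G → V →ₗ[F] W) {N m : ℕ} (hN : 0 < N) (hm : 0 < m) (hd : 0 < finrank F V)
    (hnum : 2 * ((((m + m) * finrank F V + 1) ^ (finrank F W * finrank F W) : ℕ) : ℝ)
      < Real.exp (((m : ℝ) / (4 * N)) ^ 2 / (2 * m * (finrank F V : ℝ) ^ 2))) :
    ∃ (k : ℕ) (U₀ : Submodule F W) (L : Finset (Fin m → G)), k ≤ 2 * finrank F W + 1 ∧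
      (∀ b ∈ L, (∀ i, b i ∈ A) ∧ IsUMin N k (fun i => j (b i)) U₀) ∧
      A.card ^ m ≤ L.card * (2 ^ m * (2 * finrank F W + 2)) := by
  classical
  let Am : Finset (Fin m → G) := Fintype.piFinset fun _ => A
  have hAm : Am.card = A.card ^ m := by simp [Am]
  have hpos : 0 < A.card ^ m := pow_pos hA.card_pos m
  choose σ κ hκ Uc hU1 hU2 using fun x : (Fin m → G) × (Fin m → G) =>
    exists_common_min hN hm hd hnum (fun i => j (x.1 i)) (fun i => j (x.2 i))
  have hmix : ∀ (s : Fin m → Bool) (a b : Fin m → G),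
      mix s (fun i => j (a i)) (fun i => j (b i)) = fun i => j (mix s a b i) := by
    intro s a b
    funext i
    by_cases hi : s i <;> simp [mix, hi]
  have hmixmem : ∀ (s : Fin m → Bool), ∀ a ∈ Am, ∀ b ∈ Am, mix s a b ∈ Am := by
    intro s a ha b hb
    refine Fintype.mem_piFinset.2 fun i => ?_
    by_cases hi : s i
    · simpa [mix, hi] using Fintype.mem_piFinset.1 ha i
    · simpa [mix, hi] using Fintype.mem_piFinset.1 hb i
  obtain ⟨⟨s, k, a'⟩, hmem, hcard⟩ := exists_big_fiber (Am ×ˢ Am)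
    ((Finset.univ : Finset (Fin m → Bool)) ×ˢ (Finset.range (2 * finrank F W + 2) ×ˢ Am))
    (fun x => (σ x, κ x, mix (σ x) x.1 x.2))
    (fun x hx => by
      have h1 := Finset.mem_product.1 hx
      simp only [Finset.mem_product, Finset.mem_univ, Finset.mem_range, true_and]
      exact ⟨Nat.lt_succ_of_le (hκ x), hmixmem _ _ h1.1 _ h1.2⟩)
    (by
      simp only [Finset.nonempty_product, Finset.univ_nonempty, true_and]
      exact ⟨⟨0, by simp⟩, Finset.card_pos.1 (hAm ▸ hpos)⟩)
  set Fb := (Am ×ˢ Am).filter fun x => (σ x, κ x, mix (σ x) x.1 x.2) = (s, k, a') with hFb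
  simp only [Finset.card_product, Finset.card_univ, Fintype.card_pi, Fintype.card_bool,
    Finset.prod_const, Fintype.card_fin, Finset.card_range, hAm] at hcard
  have hFbpos : 0 < Fb.card := by
    by_contra h
    have h0 : Fb.card = 0 := by omega
    rw [h0, zero_mul] at hcard
    have := Nat.mul_pos hpos hpos
    omega
  obtain ⟨x₀, hx₀⟩ := Finset.card_pos.1 hFbpos
  have hfib : ∀ x ∈ Fb, x.1 ∈ Am ∧ x.2 ∈ Am ∧ σ x = s ∧ κ x = k ∧ mix s x.1 x.2 = a' := by
    intro x hx
    obtain ⟨h1, h2⟩ := Finset.mem_filter.1 hx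
    have h3 := Finset.mem_product.1 h1
    simp only [Prod.mk.injEq] at h2
    refine ⟨h3.1, h3.2, h2.1, h2.2.1, ?_⟩
    rw [← h2.1]; exact h2.2.2
  have hU : ∀ x ∈ Fb, IsUMin N k (fun i => j (a' i)) (Uc x) := by
    intro x hx
    obtain ⟨-, -, h1, h2, h3⟩ := hfib x hx
    have := hU1 x
    rwa [hmix, h1, h2, h3] at this
  refine ⟨k, Uc x₀, Fb.image fun x => mix s x.2 x.1, ?_, ?_, ?_⟩
  · obtain ⟨-, -, -, h2, -⟩ := hfib x₀ hx₀
    exact h2 ▸ hκ x₀
  · intro b hb
    obtain ⟨x, hx, rfl⟩ := Finset.mem_image.1 hb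
    obtain ⟨h0, h0', h1, h2, -⟩ := hfib x hx
    refine ⟨Fintype.mem_piFinset.1 (hmixmem s _ h0' _ h0), ?_⟩
    have := hU2 x
    rw [hmix, h1, h2] at this
    rwa [(hU x₀ hx₀).unique (hU x hx)]
  · rw [Finset.card_image_of_injOn]
    · refine Nat.le_of_mul_le_mul_right ?_ hpos
      calc A.card ^ m * A.card ^ m
          ≤ Fb.card * (2 ^ m * ((2 * finrank F W + 2) * A.card ^ m)) := hcard
        _ = _ := by ring
    · intro x hx y hy e
      obtain ⟨-, -, -, -, h3⟩ := hfib x hx
      obtain ⟨-, -, -, -, h4⟩ := hfib y hy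
      have h5 := h3.trans h4.symm
      ext i
      · have e1 := congrFun e i
        have e2 := congrFun h5 i
        by_cases hi : s i <;> simp [mix, hi] at e1 e2 <;> assumption
      · have e1 := congrFun e i
        have e2 := congrFun h5 i
        by_cases hi : s i <;> simp [mix, hi] at e1 e2 <;> assumption

end Pool.Agent.MP_62dea9_al
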