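import Mathlib

set_option autoImplicit false

namespace Pool.Agent.MP_62dea9_al

universe u

/-- The product set `A² = {a b : a, b ∈ A}`. -/
def sqSet {F : Type u} [Field F] {d : ℕ} (A : Set (Matrix.GeneralLinearGroup (Fin d) F)) :
    Set (Matrix.GeneralLinearGroup (Fin d) F) :=
  {x | ∃ a ∈ A, ∃ b ∈ A, a * b = x}

/-- The dimension of a subspace of `F^d`, as a real number. -/
noncomputable def dimR {F : Type u} [Field F] {d : ℕ} (V : Submodule F (Fin d → F)) : ℝ :=
  Module.finrank F V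

/-- `a` has an eigenspace of dimension at least `m`: `dim ker (a - l) ≥ m` for some scalar `l`. -/
def HasEigenspaceDimGe {F : Type u} [Field F] {d : ℕ} (a : Matrix.GeneralLinearGroup (Fin d) F)
    (m : ℝ) : Prop :=
  ∃ l : F, m ≤ dimR (Module.End.eigenspace (Matrix.mulVecLin a.val) l)

/-- `(a - l) V₂ ⊆ V₁` for some scalar `l`. -/
def MapsScalarMod {F : Type u} [Field F] {d : ℕ} (a : Matrix.GeneralLinearGroup (Fin d) F)
    (V₁ V₂ : Submodule F (Fin d → F)) : Prop :=
  ∃ l : F, ∀ v ∈ V₂, Matrix.mulVec a.val v - l • v ∈ V₁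

end Pool.Agent.MP_62dea9_al
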