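import Mathlib
import Pool.Agent.MP_62dea9_al.Common

set_option autoImplicit false

namespace Pool.Agent.MP_62dea9_al

open Module
open scoped Pointwise

variable {F V : Type*} [Field F] [AddCommGroup V] [Module F V] [FiniteDimensional F V]

lemma finrank_inf_ge (U U' : Submodule F V) :
    finrank F U + finrank F U' ≤ finrank F (U ⊓ U' : Submodule F V) + finrank F V := by
  have h1 := Submodule.finrank_sup_add_finrank_inf_eq U U'
  have h2 := Submodule.finrank_le (U ⊔ U')
  omega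

omit [FiniteDimensional F V] in
lemma exists_ne_zero_of_finrank_pos {U : Submodule F V} (h : 0 < finrank F U) :
    ∃ v ∈ U, v ≠ 0 := by
  apply Submodule.exists_mem_ne_zero_of_ne_bot
  rintro rfl
  simp at h

/-- The dimension gap between the second projection of a linear relation and its part over `0`. -/
lemma two_ff_le (U : Submodule F (V × V)) (T : V ≃ₗ[F] V) :
    2 * ff U (LinearMap.prod LinearMap.id T.toLinearMap)
        + finrank F (U.comap (LinearMap.inr F V V))
      ≤ finrank F (U.map (LinearMap.snd F V V)) + finrank F U := by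
  set P := U.comap (LinearMap.prod LinearMap.id T.toLinearMap) with hP
  have h1 : finrank F P ≤ finrank F (U.map (LinearMap.snd F V V)) := by
    rw [← LinearEquiv.finrank_map_eq T P]
    apply Submodule.finrank_mono
    rintro _ ⟨v, hv, rfl⟩
    exact ⟨(v, T v), hv, rfl⟩
  have h2 : finrank F P ≤ finrank F (U.map (LinearMap.fst F V V)) := by
    apply Submodule.finrank_mono
    intro v hv
    exact ⟨(v, T v), hv, rfl⟩
  have h3 := LinearMap.finrank_range_add_finrank_ker ((LinearMap.fst F V V).domRestrict U)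
  rw [LinearMap.range_domRestrict] at h3
  have h4 : finrank F (U.comap (LinearMap.inr F V V))
      ≤ finrank F (LinearMap.ker ((LinearMap.fst F V V).domRestrict U)) := by
    let φ : U.comap (LinearMap.inr F V V) →ₗ[F]
        LinearMap.ker ((LinearMap.fst F V V).domRestrict U) :=
      { toFun := fun w => ⟨⟨(0, w.1), w.2⟩, rfl⟩
        map_add' := fun a b => by ext <;> simp
        map_smul' := fun c a => by ext <;> simp }
    refine LinearMap.finrank_le_finrank_of_injective (f := φ) ?_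
    intro a b h
    apply Subtype.ext
    exact congrArg (fun x => x.1.1.2) h
  unfold ff
  rw [← hP]
  omega

lemma numeric_bound (d : ℕ) (hd : 0 < d) :
    2 * (((((1000000 * d ^ 7) ^ 2 + (1000000 * d ^ 7) ^ 2) * d + 1) ^ ((d + d) * (d + d)) : ℕ) : ℝ)
      < Real.exp (((((1000000 * d ^ 7) ^ 2 : ℕ) : ℝ) / (4 * ((40 * d : ℕ) : ℝ))) ^ 2
        / (2 * (((1000000 * d ^ 7) ^ 2 : ℕ) : ℝ) * (d : ℝ) ^ 2)) := by
  have hd1 : (1 : ℝ) ≤ d := by exact_mod_cast hd
  set u : ℝ := 1000000 * (d : ℝ) ^ 7 with hu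
  have hu1 : 1 ≤ u := by
    have : (1 : ℝ) ≤ (d : ℝ) ^ 7 := one_le_pow₀ hd1
    rw [hu]; linarith
  push_cast
  rw [← hu]
  have e1 : (u ^ 2 / (4 * (40 * (d : ℝ)))) ^ 2 / (2 * u ^ 2 * (d : ℝ) ^ 2)
      = u * (1000000 / 51200 * (d : ℝ) ^ 3) := by
    have : u = 1000000 * (d : ℝ) ^ 7 := hu
    field_simp
    rw [this]
    ring
  rw [e1]
  have h1 : (u ^ 2 + u ^ 2) * d + 1 ≤ Real.exp (3 * u * d) := by
    have h := Real.quadratic_le_exp_of_nonneg (x := 3 * u * d) (by positivity)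
    have h2 : u ^ 2 * d ≤ u ^ 2 * (d : ℝ) ^ 2 := by
      apply mul_le_mul_of_nonneg_left _ (by positivity)
      nlinarith
    have h3 : 0 ≤ 3 * u * d := by positivity
    have h4 : 0 ≤ u ^ 2 * (d : ℝ) ^ 2 := by positivity
    nlinarith
  have h2 : ((u ^ 2 + u ^ 2) * d + 1) ^ ((d + d) * (d + d))
      ≤ Real.exp (12 * (u * (d : ℝ) ^ 3)) := by
    calc ((u ^ 2 + u ^ 2) * d + 1) ^ ((d + d) * (d + d))
        ≤ Real.exp (3 * u * d) ^ ((d + d) * (d + d)) :=
          pow_le_pow_left₀ (by positivity) h1 _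
      _ = _ := by
          rw [← Real.exp_nat_mul]
          congr 1
          push_cast
          ring
  have h3 : (2 : ℝ) < Real.exp 1 := by
    have := Real.add_one_lt_exp (x := 1) one_ne_zero
    linarith
  have h4 : 1 ≤ u * (d : ℝ) ^ 3 := one_le_mul_of_one_le_of_one_le hu1 (one_le_pow₀ hd1)
  calc 2 * ((u ^ 2 + u ^ 2) * d + 1) ^ ((d + d) * (d + d))
      ≤ 2 * Real.exp (12 * (u * (d : ℝ) ^ 3)) := by linarith
    _ < Real.exp 1 * Real.exp (12 * (u * (d : ℝ) ^ 3)) :=
        mul_lt_mul_of_pos_right h3 (Real.exp_pos _)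
    _ = Real.exp (1 + 12 * (u * (d : ℝ) ^ 3)) := by rw [Real.exp_add]
    _ ≤ _ := by
        apply Real.exp_le_exp.2
        nlinarith

theorem core {G : Type*} [Group G] [DecidableEq G] (π : G →* (V ≃ₗ[F] V)) (A : Finset G) (K : ℝ)
    (hA : IsApproximateSubgroup K (A : Set G)) (hd : 0 < finrank F V)
    (heig : ∀ a ∈ A * A, ∃ l : F,
      3 * finrank F V ≤ 4 * finrank F (End.eigenspace (π a).toLinearMap l)) :
    ∃ V₁ V₂ : Submodule F V, V₁ ≤ V₂ ∧ finrank F V + 4 * finrank F V₁ < 4 * finrank F V₂ ∧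
      ∃ T : Finset G, T ⊆ A * A ∧ (∀ s ∈ T, ∃ l : F, ∀ v ∈ V₂, π s v - l • v ∈ V₁) ∧
        ((A * A).card : ℝ)
          ≤ T.card * (2 * K) ^ ((1000000 * finrank F V ^ 7) ^ 2 + 4 * finrank F V + 3) := by
  classical
  set d := finrank F V with hdd
  set m := (1000000 * d ^ 7) ^ 2 with hmm
  have hm : 0 < m := by positivity
  have h1A : (1 : G) ∈ A := hA.one_mem
  have hinv : ∀ a ∈ A, a⁻¹ ∈ A := by
    intro a ha
    have : a⁻¹ ∈ ((A : Set G))⁻¹ := by simpa using ha
    rw [hA.inv_eq_self] at this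
    exact this
  have hsub : ∀ a ∈ A, a ∈ A * A := fun a ha => by
    simpa using Finset.mul_mem_mul ha h1A
  choose! lam hlam using heig
  have hlam0 : ∀ a ∈ A * A, lam a ≠ 0 := by
    intro a ha h0
    obtain ⟨v, hv, hv0⟩ := exists_ne_zero_of_finrank_pos
      (U := End.eigenspace (π a).toLinearMap (lam a)) (by have := hlam a ha; omega)
    rw [End.mem_eigenspace_iff, h0, zero_smul] at hv
    exact hv0 ((π a).map_eq_zero_iff.1 hv)
  have hmul : ∀ t ∈ A, ∀ b ∈ A, lam (t * b) = lam t * lam b := by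
    intro t ht b hb
    have e1 := hlam t (hsub t ht)
    have e2 := hlam b (hsub b hb)
    have e3 := hlam (t * b) (Finset.mul_mem_mul ht hb)
    have i1 := finrank_inf_ge (End.eigenspace (π t).toLinearMap (lam t))
      (End.eigenspace (π b).toLinearMap (lam b))
    have i2 := finrank_inf_ge (End.eigenspace (π t).toLinearMap (lam t) ⊓
      End.eigenspace (π b).toLinearMap (lam b))
      (End.eigenspace (π (t * b)).toLinearMap (lam (t * b)))
    obtain ⟨v, ⟨⟨hv1, hv2⟩, hv3⟩, hv0⟩ := exists_ne_zero_of_finrank_pos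
      (U := (End.eigenspace (π t).toLinearMap (lam t) ⊓
        End.eigenspace (π b).toLinearMap (lam b)) ⊓
        End.eigenspace (π (t * b)).toLinearMap (lam (t * b))) (by omega)
    have hv1' : π t v = lam t • v := End.mem_eigenspace_iff.1 hv1
    have hv2' : π b v = lam b • v := End.mem_eigenspace_iff.1 hv2
    have hv3' : π (t * b) v = lam (t * b) • v := End.mem_eigenspace_iff.1 hv3
    rw [map_mul, LinearEquiv.mul_apply, hv2', map_smul, hv1', smul_smul] at hv3'
    rw [mul_comm]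
    exact (smul_left_injective F hv0 hv3').symm
  let β : G → V ≃ₗ[F] V := fun y =>
    if h : lam y = 0 then π y else (π y).trans (LinearEquiv.smulOfNeZero F V (lam y)⁻¹ (inv_ne_zero h))
  have hβ : ∀ y ∈ A * A, ∀ v, β y v = (lam y)⁻¹ • π y v := by
    intro y hy v
    simp [β, hlam0 y hy]
  have hβmul : ∀ t ∈ A, ∀ b ∈ A, ∀ v, β (t * b) v = β t (β b v) := by
    intro t ht b hb v
    rw [hβ _ (Finset.mul_mem_mul ht hb), hβ _ (hsub t ht), hβ _ (hsub b hb), hmul t ht b hb,
      map_mul, LinearEquiv.mul_apply, map_smul, smul_smul, mul_inv]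
  let j : G → V →ₗ[F] V × V := fun y => LinearMap.prod LinearMap.id (β y).toLinearMap
  have hW : finrank F (V × V) = d + d := Module.finrank_prod
  obtain ⟨k, U₀, L, hk, hL, hcard⟩ := exists_many_common A ⟨1, h1A⟩ j (N := 40 * d) (m := m)
    (by positivity) hm hd (by rw [hW]; exact numeric_bound d hd)
  rw [hW] at hk hcard
  have hApos : 0 < A.card := Finset.card_pos.2 ⟨1, h1A⟩
  obtain ⟨y, -, hy⟩ := exists_big_fiber (A ×ˢ L) (Fintype.piFinset fun _ : Fin m => A * A)
    (fun x i => x.1 * x.2 i)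
    (fun x hx => Fintype.mem_piFinset.2 fun i =>
      Finset.mul_mem_mul (Finset.mem_product.1 hx).1 ((hL _ (Finset.mem_product.1 hx).2).1 i))
    (Fintype.piFinset_nonempty.2 fun _ => ⟨1, hsub 1 h1A⟩)
  set Fb := (A ×ˢ L).filter fun x => (fun i => x.1 * x.2 i) = y with hFb
  simp only [Finset.card_product, Fintype.card_piFinset, Finset.prod_const, Finset.card_univ,
    Fintype.card_fin] at hy
  have hLpos : 0 < L.card := by
    by_contra h
    have h0 : L.card = 0 := by omega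
    rw [h0, zero_mul] at hcard
    have := pow_pos hApos m
    omega
  have hFbpos : 0 < Fb.card := by
    by_contra h
    have h0 : Fb.card = 0 := by omega
    rw [h0, zero_mul] at hy
    have := Nat.mul_pos hApos hLpos
    omega
  obtain ⟨⟨t₀, b₀⟩, hx₀⟩ := Finset.card_pos.1 hFbpos
  have hfib : ∀ x ∈ Fb, x.1 ∈ A ∧ x.2 ∈ L ∧ ∀ i, x.1 * x.2 i = y i := by
    intro x hx
    obtain ⟨h1, h2⟩ := Finset.mem_filter.1 hx
    exact ⟨(Finset.mem_product.1 h1).1, (Finset.mem_product.1 h1).2, fun i => congrFun h2 i⟩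
  let ρ : G → (V × V) ≃ₗ[F] (V × V) := fun t => (LinearEquiv.refl F V).prodCongr (β t)
  have hmin : ∀ x ∈ Fb, IsUMin (40 * d) k (fun i => j (y i)) (U₀.map (ρ x.1).toLinearMap) := by
    intro x hx
    obtain ⟨h1, h2, h3⟩ := hfib x hx
    have := (hL _ h2).2.map (ρ x.1)
    convert this using 2 with i
    ext v
    · simp [j, ρ]
    · simp [j, ρ, ← h3 i, hβmul _ h1 _ ((hL _ h2).1 i)]
  obtain ⟨ht₀, hb₀, -⟩ := hfib _ hx₀
  refine ⟨U₀.comap (LinearMap.inr F V V), U₀.map (LinearMap.snd F V V), ?_, ?_,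
    Fb.image fun x => t₀⁻¹ * x.1, ?_, ?_, ?_⟩
  · intro w hw
    exact ⟨(0, w), hw, rfl⟩
  · let Δ : Submodule F (V × V) := LinearMap.range (LinearMap.prod LinearMap.id LinearMap.id)
    have hΔ : finrank F Δ ≤ d := LinearMap.finrank_range_le _
    have hle := (hL _ hb₀).2.le Δ
    have hb : ∀ i, b₀ i ∈ A := (hL _ hb₀).1
    have h1 : ∀ i, 3 * d ≤ 4 * ff Δ (j (b₀ i)) := by
      intro i
      refine (hlam _ (hsub _ (hb i))).trans (Nat.mul_le_mul_left 4 ?_)
      apply Submodule.finrank_mono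
      intro v hv
      have hv' : π (b₀ i) v = lam (b₀ i) • v := End.mem_eigenspace_iff.1 hv
      refine ⟨v, ?_⟩
      have : β (b₀ i) v = v := by
        rw [hβ _ (hsub _ (hb i)), hv', smul_smul, inv_mul_cancel₀ (hlam0 _ (hsub _ (hb i))),
          one_smul]
      simp [j, this]
    have h2 : ∀ i, 2 * ff U₀ (j (b₀ i)) + finrank F (U₀.comap (LinearMap.inr F V V))
        ≤ finrank F (U₀.map (LinearMap.snd F V V)) + finrank F U₀ :=
      fun i => two_ff_le U₀ (β (b₀ i))
    have s1 : (m : ℤ) * (3 * d) ≤ 4 * ∑ i, (ff Δ (j (b₀ i)) : ℤ) := by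
      rw [Finset.mul_sum]
      calc (m : ℤ) * (3 * d) = ∑ _i : Fin m, (3 * d : ℤ) := by simp
        _ ≤ _ := Finset.sum_le_sum fun i _ => by exact_mod_cast h1 i
    set a₁ : ℤ := (finrank F (U₀.comap (LinearMap.inr F V V)) : ℤ) with ha₁
    set a₂ : ℤ := (finrank F (U₀.map (LinearMap.snd F V V)) : ℤ) with ha₂
    set a₀ : ℤ := (finrank F U₀ : ℤ) with ha₀
    have s2 : 2 * ∑ i, (ff U₀ (j (b₀ i)) : ℤ) ≤ m * (a₂ + a₀ - a₁) := by
      rw [Finset.mul_sum]
      calc ∑ i, 2 * (ff U₀ (j (b₀ i)) : ℤ) ≤ ∑ _i : Fin m, (a₂ + a₀ - a₁) :=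
            Finset.sum_le_sum fun i _ => by
              have := h2 i
              omega
        _ = _ := by rw [Finset.sum_const, Finset.card_univ, Fintype.card_fin, nsmul_eq_mul]
    unfold Phi at hle
    rw [← ha₀] at hle
    push_cast at hle
    set S₀ := ∑ i, (ff U₀ (j (b₀ i)) : ℤ)
    set S₁ := ∑ i, (ff Δ (j (b₀ i)) : ℤ)
    have hm' : (0 : ℤ) < m := by exact_mod_cast hm
    have hd' : (0 : ℤ) < d := by exact_mod_cast hd
    have hk' : (k : ℤ) ≤ 5 * d := by omega
    have hΔ' : (finrank F Δ : ℤ) ≤ d := by exact_mod_cast hΔ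
    have ha0 : 0 ≤ a₀ := by positivity
    have hk0 : (0 : ℤ) ≤ k := by positivity
    have t1 : (40 * (d : ℤ) + k) * m * finrank F Δ ≤ 45 * d * m * d := by
      apply mul_le_mul _ hΔ' (by positivity) (by positivity)
      apply mul_le_mul_of_nonneg_right _ hm'.le
      linarith
    have t2 : 40 * (d : ℤ) * m * a₀ ≤ (40 * (d : ℤ) + k) * m * a₀ := by
      apply mul_le_mul_of_nonneg_right _ ha0
      apply mul_le_mul_of_nonneg_right _ hm'.le
      linarith
    have t3 : 40 * (d : ℤ) * (2 * S₀) ≤ 40 * d * (m * (a₂ + a₀ - a₁)) :=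
      mul_le_mul_of_nonneg_left s2 (by positivity)
    have t4 : 20 * (d : ℤ) * (m * (3 * d)) ≤ 20 * d * (4 * S₁) :=
      mul_le_mul_of_nonneg_left s1 (by positivity)
    have t5 : (d : ℤ) * m * (15 * d) ≤ d * m * (40 * (a₂ - a₁)) := by nlinarith
    have t6 : 15 * (d : ℤ) ≤ 40 * (a₂ - a₁) := le_of_mul_le_mul_left t5 (by positivity)
    omega
  · intro s hs
    obtain ⟨x, hx, rfl⟩ := Finset.mem_image.1 hs
    exact Finset.mul_mem_mul (hinv _ ht₀) (hfib x hx).1
  · intro s hs
    obtain ⟨x, hx, rfl⟩ := Finset.mem_image.1 hs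
    have ht := (hfib x hx).1
    have heq := (hmin x hx).unique (hmin _ hx₀)
    refine ⟨lam x.1 * (lam t₀)⁻¹, ?_⟩
    rintro _ ⟨⟨v, w⟩, hvw, rfl⟩
    have h1 : (ρ x.1) (v, w) ∈ U₀.map (ρ t₀).toLinearMap := heq ▸ ⟨(v, w), hvw, rfl⟩
    obtain ⟨⟨v', w'⟩, hvw', e⟩ := h1
    have e1 : v' = v := by simpa [ρ] using congrArg Prod.fst e
    have e2 : β t₀ w' = β x.1 w := by simpa [ρ] using congrArg Prod.snd e
    subst e1
    have h2 : ((0 : V), w' - w) ∈ U₀ := by
      have := U₀.sub_mem hvw' hvw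
      simpa using this
    have h3 := U₀.smul_mem (lam x.1 * (lam t₀)⁻¹) h2
    rw [hβ _ (hsub _ ht₀), hβ _ (hsub _ ht)] at e2
    have hl0 := hlam0 _ (hsub _ ht₀)
    have hl1 := hlam0 _ (hsub _ ht)
    have e3 : π (t₀⁻¹ * x.1) w = (lam x.1 * (lam t₀)⁻¹) • w' := by
      apply (π t₀).injective
      rw [← LinearEquiv.mul_apply, ← map_mul, mul_inv_cancel_left, map_smul, mul_smul, e2,
        smul_smul, mul_inv_cancel₀ hl1, one_smul]
    simp only [LinearMap.snd_apply, Submodule.mem_comap, LinearMap.inr_apply]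
    rw [e3, ← smul_sub]
    simpa using h3
  · rw [Finset.card_image_of_injOn]
    · have hK1 : 1 ≤ K := hA.one_le
      have hAA : ((A * A).card : ℝ) ≤ K * A.card := hA.card_mul_self_le
      have hApos' : (0 : ℝ) < A.card := by exact_mod_cast hApos
      have c1 : (A.card : ℝ) ^ m ≤ L.card * (2 ^ m * (2 * (d + d) + 2)) := by exact_mod_cast hcard
      have c2 : (A.card : ℝ) * L.card ≤ Fb.card * ((A * A).card : ℝ) ^ m := by exact_mod_cast hy
      have c3 : ((A * A).card : ℝ) ^ m ≤ (K * A.card) ^ m := pow_le_pow_left₀ (by positivity) hAA m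
      have c4 : (A.card : ℝ) * (A.card : ℝ) ^ m
          ≤ (Fb.card * ((2 * K) ^ m * (2 * (d + d) + 2))) * (A.card : ℝ) ^ m := by
        calc (A.card : ℝ) * (A.card : ℝ) ^ m
            ≤ A.card * (L.card * (2 ^ m * (2 * (d + d) + 2))) :=
              mul_le_mul_of_nonneg_left c1 hApos'.le
          _ = (A.card * L.card) * (2 ^ m * (2 * (d + d) + 2)) := by ring
          _ ≤ (Fb.card * (K * A.card) ^ m) * (2 ^ m * (2 * (d + d) + 2)) := by
              apply mul_le_mul_of_nonneg_right _ (by positivity)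
              exact c2.trans (mul_le_mul_of_nonneg_left c3 (by positivity))
          _ = _ := by rw [mul_pow, mul_pow]; ring
      have c5 : (A.card : ℝ) ≤ Fb.card * ((2 * K) ^ m * (2 * (d + d) + 2)) :=
        le_of_mul_le_mul_right c4 (by positivity)
      have c6 : (2 * (d + d) + 2 : ℝ) ≤ (2 * K) ^ (4 * d + 2) := by
        have h1 : 4 * d + 2 < 2 ^ (4 * d + 2) := Nat.lt_two_pow_self
        have h2 : ((4 * d + 2 : ℕ) : ℝ) ≤ 2 ^ (4 * d + 2) := by exact_mod_cast h1.le
        have h3 : (2 : ℝ) ^ (4 * d + 2) ≤ (2 * K) ^ (4 * d + 2) :=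
          pow_le_pow_left₀ (by positivity) (by linarith) _
        push_cast at h2
        linarith
      calc ((A * A).card : ℝ) ≤ K * A.card := hAA
        _ ≤ (2 * K) * (Fb.card * ((2 * K) ^ m * (2 * K) ^ (4 * d + 2))) := by
            apply mul_le_mul (by linarith) _ hApos'.le (by positivity)
            refine c5.trans (mul_le_mul_of_nonneg_left ?_ (by positivity))
            exact mul_le_mul_of_nonneg_left c6 (by positivity)
        _ = _ := by ring
    · intro x hx x' hx' e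
      have e1 : x.1 = x'.1 := mul_left_cancel e
      obtain ⟨-, -, h3⟩ := hfib x hx
      obtain ⟨-, -, h4⟩ := hfib x' hx'
      ext i
      · exact e1
      · have := (h3 i).trans (h4 i).symm
        rw [e1] at this
        exact mul_left_cancel this

theorem final.{u} :
    ∃ c : ℝ, 0 < c ∧ ∃ C : ℝ, 1 ≤ C ∧
      ∀ (F : Type u) [Field F] (d : ℕ), 1 ≤ d → ∀ K : ℝ, 1 ≤ K →
        ∀ A : Set (GL (Fin d) F), A.Finite → IsApproximateSubgroup K A →
          (∀ a ∈ A ^ 2, ∃ l : F, (1 - c) * d ≤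
            Module.finrank F (Module.End.eigenspace (Matrix.toLin' (a : Matrix (Fin d) (Fin d) F)) l)) →
          ∃ V₁ V₂ : Submodule F (Fin d → F), V₁ ≤ V₂ ∧
            c * d < (Module.finrank F V₂ : ℝ) - Module.finrank F V₁ ∧
            (2 * K) ^ (-(C * (d : ℝ) ^ C)) * (A ^ 2).ncard ≤
              {a ∈ A ^ 2 | ∃ l : F, ∀ v ∈ V₂,
                Matrix.toLin' (a : Matrix (Fin d) (Fin d) F) v - l • v ∈ V₁}.ncard := by
  refine ⟨1 / 4, by norm_num, ((1000000000007 : ℕ) : ℝ), by norm_num, ?_⟩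
  intro F _ d hd K hK A hfin hA heig
  classical
  lift A to Finset (GL (Fin d) F) using hfin
  have hsq : ((A : Set (GL (Fin d) F))) ^ 2 = ((A * A : Finset (GL (Fin d) F)) : Set _) := by
    rw [sq, Finset.coe_mul]
  let π : GL (Fin d) F →* ((Fin d → F) ≃ₗ[F] (Fin d → F)) :=
    ((LinearMap.GeneralLinearGroup.generalLinearEquiv F (Fin d → F)).toMonoidHom).comp
      (Matrix.GeneralLinearGroup.toLin (n := Fin d) (R := F)).toMonoidHom
  have hπ : ∀ a : GL (Fin d) F,
      (π a).toLinearMap = Matrix.toLin' (a : Matrix (Fin d) (Fin d) F) := fun a => rfl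
  have hV : finrank F (Fin d → F) = d := by simp
  obtain ⟨V₁, V₂, h12, hdim, T, hT, hgood, hcard⟩ := core π A K hA (by rw [hV]; exact hd)
    (fun a ha => by
      obtain ⟨l, hl⟩ := heig a (by rw [hsq]; exact ha)
      refine ⟨l, ?_⟩
      rw [hV, hπ]
      have : (3 * d : ℝ) ≤ 4 * Module.finrank F
          (Module.End.eigenspace (Matrix.toLin' (a : Matrix (Fin d) (Fin d) F)) l) := by
        linarith
      exact_mod_cast this)
  rw [hV] at hdim hcard
  refine ⟨V₁, V₂, h12, ?_, ?_⟩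
  · have : (d + 4 * Module.finrank F V₁ : ℝ) < 4 * Module.finrank F V₂ := by exact_mod_cast hdim
    linarith
  · have h1 : T.card ≤ {a ∈ (A : Set (GL (Fin d) F)) ^ 2 | ∃ l : F, ∀ v ∈ V₂,
        Matrix.toLin' (a : Matrix (Fin d) (Fin d) F) v - l • v ∈ V₁}.ncard := by
      rw [← Set.ncard_coe_finset]
      apply Set.ncard_le_ncard
      · intro s hs
        exact ⟨by rw [hsq]; exact hT hs, hgood s hs⟩
      · rw [hsq]
        exact (Finset.finite_toSet _).subset (Set.sep_subset _ _)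
    have h1' : (T.card : ℝ) ≤ ({a ∈ (A : Set (GL (Fin d) F)) ^ 2 | ∃ l : F, ∀ v ∈ V₂,
        Matrix.toLin' (a : Matrix (Fin d) (Fin d) F) v - l • v ∈ V₁}.ncard : ℝ) := by
      exact_mod_cast h1
    refine le_trans ?_ h1'
    rw [hsq, Set.ncard_coe_finset, Real.rpow_neg (by linarith), inv_mul_le_iff₀ (by positivity),
      mul_comm _ (T.card : ℝ)]
    refine hcard.trans (mul_le_mul_of_nonneg_left ?_ (by positivity))
    rw [← Real.rpow_natCast]
    apply Real.rpow_le_rpow_of_exponent_le (by linarith)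
    have hd1 : (1 : ℝ) ≤ d := by exact_mod_cast hd
    have p14 : (d : ℝ) ^ 14 ≤ (d : ℝ) ^ ((1000000000007 : ℕ) : ℝ) := by
      rw [← Real.rpow_natCast]
      exact Real.rpow_le_rpow_of_exponent_le hd1 (by norm_num)
    have p1 : (d : ℝ) ≤ (d : ℝ) ^ 14 := le_self_pow₀ hd1 (by norm_num)
    generalize (d : ℝ) ^ ((1000000000007 : ℕ) : ℝ) = x at p14 ⊢
    push_cast
    nlinarith

end Pool.Agent.MP_62dea9_al
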