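import Mathlib
import Pool.Agent.MP_62dea9_al.Defs
import Pool.Agent.MP_62dea9_al.Main

set_option autoImplicit false

namespace Pool.Agent.MP_62dea9_al

open scoped Pointwise

universe u

lemma sqSet_eq {F : Type u} [Field F] {d : ℕ} (A : Set (GL (Fin d) F)) : sqSet A = A ^ 2 := by
  rw [sq]
  rfl

theorem final' :
    ∃ c : ℝ, 0 < c ∧ ∃ C : ℝ, 1 ≤ C ∧
      ∀ (F : Type u) [Field F] (d : ℕ), 1 ≤ d → ∀ K : ℝ, 1 ≤ K →
        ∀ A : Set (GL (Fin d) F), A.Finite → IsApproximateSubgroup K A →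
          (∀ a ∈ sqSet A, HasEigenspaceDimGe a ((1 - c) * d)) →
          ∃ V₁ V₂ : Submodule F (Fin d → F), V₁ ≤ V₂ ∧ c * d < dimR V₂ - dimR V₁ ∧
            (2 * K) ^ (-(C * (d : ℝ) ^ C)) * (sqSet A).ncard ≤
              {a ∈ sqSet A | MapsScalarMod a V₁ V₂}.ncard := by
  obtain ⟨c, hc, C, hC, h⟩ := final.{u}
  refine ⟨c, hc, C, hC, fun F _ d hd K hK A hfin hA heig => ?_⟩
  rw [sqSet_eq] at heig ⊢
  exact h F d hd K hK A hfin hA heig

end Pool.Agent.MP_62dea9_al
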